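import Pool.Agent.K6.H83.MC.Mills

set_option autoImplicit false
set_option maxHeartbeats 4000000

/-! # Mills-type constants for the functions `v k * t ^ n k` -/

namespace Pool.Agent.K6.H83.MC

open Set Filter Topology

theorem fast_pow {lam a₀ a b C : ℝ} {v n : ℕ → ℝ} (hlam : 1 < lam) (h0 : 0 < a₀) (h1 : a₀ < a)
    (hab : a < b) (hC : 1 ≤ C) (hn0 : 0 < n 0) (hn : Monotone n) (hv : ∀ k, 0 < v k)
    (hbC : b ≤ a * (a / a₀) ^ (C - 1))
    (hone : ∀ t, a₀ ≤ t → t ≤ b → 1 < v 0 * t ^ n 0)
    (hgrow : ∀ k t, a₀ ≤ t → t ≤ b → (v k * t ^ n k) ^ lam ≤ v (k + 1) * t ^ n (k + 1)) :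
    Fast (1 - 1 / lam) C (2 * (b / a)) a b (fun k t => v k * t ^ n k)
      (fun k t => v k * (n k * t ^ (n k - 1))) := by
  have hl0 : 0 < lam := by linarith
  have ha0 : 0 < a := by linarith
  have hb0 : 0 < b := by linarith
  have hnpos : ∀ k, 0 < n k := fun k => hn0.trans_le (hn (Nat.zero_le k))
  have hg1 : ∀ k t, a₀ ≤ t → t ≤ b → 1 < v k * t ^ n k := by
    intro k
    induction k with
    | zero => exact hone
    | succ k ih =>
      intro t ht1 ht2
      exact (Real.one_lt_rpow (ih t ht1 ht2) hl0).trans_le (hgrow k t ht1 ht2)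
  have hder : ∀ k t, 0 < t → v k * (n k * t ^ (n k - 1)) = n k * (v k * t ^ n k) / t := by
    intro k t ht
    rw [Real.rpow_sub_one ht.ne']
    ring
  refine ⟨?_, ?_, ?_, ?_, ?_, ?_, ?_, ?_⟩
  · intro k t ht1 ht2
    have := (Real.hasDerivAt_rpow_const (x := t) (p := n k) (Or.inl (by linarith))).const_mul (v k)
    exact this
  · intro k t ht1 ht2
    have ht : 0 < t := by linarith
    have := hv k
    have := hnpos k
    positivity
  · intro k t ht1 ht2
    exact (hg1 k t (by linarith) ht2).le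
  · intro k
    have e1 : (b / a) ^ n k ≤ ((a / a₀) ^ (C - 1)) ^ n k := by
      apply Real.rpow_le_rpow (by positivity) _ (hnpos k).le
      rw [div_le_iff₀ ha0]
      linarith
    have e2 : ((a / a₀) ^ (C - 1)) ^ n k = ((a / a₀) ^ n k) ^ (C - 1) := by
      rw [← Real.rpow_mul (by positivity), ← Real.rpow_mul (by positivity), mul_comm]
    have e3 : (a / a₀) ^ n k ≤ v k * a ^ n k := by
      rw [Real.div_rpow ha0.le h0.le, div_le_iff₀ (by positivity)]
      have := hg1 k a₀ le_rfl (by linarith)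
      have h3 : 0 < a ^ n k := by positivity
      nlinarith
    have e4 : ((a / a₀) ^ n k) ^ (C - 1) ≤ (v k * a ^ n k) ^ (C - 1) :=
      Real.rpow_le_rpow (by positivity) e3 (by linarith)
    have e5 : v k * b ^ n k = v k * a ^ n k * (b / a) ^ n k := by
      rw [Real.div_rpow hb0.le ha0.le]
      field_simp
    have hga : 0 < v k * a ^ n k := by have := hv k; positivity
    rw [e5]
    calc v k * a ^ n k * (b / a) ^ n k ≤ v k * a ^ n k * (v k * a ^ n k) ^ (C - 1) := by
          apply mul_le_mul_of_nonneg_left _ hga.le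
          rw [e2] at e1
          exact e1.trans e4
      _ = (v k * a ^ n k) ^ C := by
          nth_rewrite 1 [← Real.rpow_one (v k * a ^ n k)]
          rw [← Real.rpow_add hga]
          ring_nf
  · intro k x y hx1 hx2 hy1 hy2 h2 _
    have hx : 0 < x := by linarith
    have hy : 0 < y := by linarith
    rw [hder k x hx, hder k y hy]
    have hnk := hnpos k
    have hgx : 0 < v k * x ^ n k := by have := hv k; positivity
    rw [div_le_iff₀ hy]
    have e1 : 1 ≤ b / a * (y / x) := by
      rw [div_mul_div_comm, one_le_div (by positivity)]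
      rw [mul_comm a x]
      exact mul_le_mul hx2 hy1 ha0.le hb0.le
    calc n k * (v k * y ^ n k) ≤ n k * (2 * (v k * x ^ n k)) := by gcongr
      _ = n k * (2 * (v k * x ^ n k)) * 1 := (mul_one _).symm
      _ ≤ n k * (2 * (v k * x ^ n k)) * (b / a * (y / x)) := by gcongr
      _ = _ := by field_simp
  · intro k x hx1 hx2
    have hx : 0 < x := by linarith
    rw [hder k x hx, hder (k + 1) x hx]
    have hgx : 0 < v k * x ^ n k := by have := hv k; positivity
    have hgx1 : 0 < v (k + 1) * x ^ n (k + 1) := by have := hv (k + 1); positivity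
    have e1 : v k * x ^ n k ≤ (v (k + 1) * x ^ n (k + 1)) ^ (1 / lam) := by
      have := Real.rpow_le_rpow (by positivity) (hgrow k x (by linarith) hx2)
        (show 0 ≤ 1 / lam by positivity)
      rw [← Real.rpow_mul hgx.le, mul_one_div_cancel hl0.ne', Real.rpow_one] at this
      exact this
    have e2 : (v (k + 1) * x ^ n (k + 1)) ^ (1 / lam) *
        (v (k + 1) * x ^ n (k + 1)) ^ (1 - 1 / lam) = v (k + 1) * x ^ n (k + 1) := by
      rw [← Real.rpow_add hgx1]; simp
    have e3 : n k ≤ n (k + 1) := hn (Nat.le_succ k)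
    have hp : 0 < (v (k + 1) * x ^ n (k + 1)) ^ (1 - 1 / lam) := Real.rpow_pos_of_pos hgx1 _
    have hnk := hnpos k
    have hnk1 := hnpos (k + 1)
    rw [div_mul_eq_mul_div, div_le_div_iff_of_pos_right hx]
    calc n k * (v k * x ^ n k) * (v (k + 1) * x ^ n (k + 1)) ^ (1 - 1 / lam)
        ≤ n (k + 1) * (v (k + 1) * x ^ n (k + 1)) ^ (1 / lam) *
          (v (k + 1) * x ^ n (k + 1)) ^ (1 - 1 / lam) := by gcongr
      _ = n (k + 1) * ((v (k + 1) * x ^ n (k + 1)) ^ (1 / lam) *
          (v (k + 1) * x ^ n (k + 1)) ^ (1 - 1 / lam)) := by ring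
      _ = _ := by rw [e2]
  · refine ⟨n 0 / b, by positivity, fun x hx1 hx2 => ?_⟩
    have hx : 0 < x := by linarith
    rw [hder 0 x hx]
    have e1 := hg1 0 x (by linarith) hx2
    calc n 0 / b ≤ n 0 / x := by gcongr
      _ = n 0 * 1 / x := by rw [mul_one]
      _ ≤ _ := by gcongr
  · -- tendsto
    have hA : 1 < v 0 * a ^ n 0 := hg1 0 a h1.le hab.le
    have e1 : ∀ k : ℕ, (v 0 * a ^ n 0) ^ (lam ^ k) ≤ v k * a ^ n k := by
      intro k
      induction k with
      | zero => simp
      | succ k ih =>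
        refine le_trans ?_ (hgrow k a h1.le hab.le)
        rw [pow_succ, Real.rpow_mul (by linarith)]
        exact Real.rpow_le_rpow (by positivity) ih hl0.le
    have e2 : Tendsto (fun k : ℕ => lam ^ k) atTop atTop := tendsto_pow_atTop_atTop_of_one_lt hlam
    have e3 := (tendsto_rpow_atTop_of_base_gt_one _ hA).comp e2
    exact tendsto_atTop_mono e1 e3

/-- **Mills-type constants for powers and dilates.** The functions `v k * t ^ n k` on `(a, b)`, where the
exponents increase and each function is at least the `lam`-th power of the previous one. -/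
theorem mills_pow {lam a b : ℝ} {v n : ℕ → ℝ} (hlam : 1 < lam) (ha : 0 ≤ a)
    (hab : a < b) (hn0 : 0 < n 0) (hn : Monotone n) (hv : ∀ k, 0 < v k)
    (hone : ∀ t, a < t → t < b → 1 < v 0 * t ^ n 0)
    (hgrow : ∀ k t, a < t → t < b → (v k * t ^ n k) ^ lam ≤ v (k + 1) * t ^ n (k + 1))
    (s θ : ℝ) (hs1 : s < 1)
    (hθ : 0 ≤ θ) (hθs : θ < (1 - 1 / lam) * (1 - s)) (Good : ℕ → ℝ → Prop) (X₀ : ℝ)
    (hX : ∀ (k : ℕ) (x : ℝ), X₀ ≤ x →
      ∃ y, x ≤ y ∧ y ≤ x + x ^ θ ∧ ∀ t, y ≤ t → t ≤ y + 1 / 2 → Good k t) :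
    ENNReal.ofReal s ≤
      dimH {t : ℝ | a < t ∧ t < b ∧ ∃ k₀, ∀ k, k₀ ≤ k → Good k (v k * t ^ n k)} := by
  rcases le_or_gt s 0 with hs0 | hs0
  · rw [ENNReal.ofReal_of_nonpos hs0]; exact zero_le
  have hl0 : 0 < lam := by linarith
  have hδ0 : 0 < 1 - 1 / lam := by
    have : 1 / lam < 1 := by rw [div_lt_one hl0]; exact hlam
    linarith
  -- the constant `C`
  obtain ⟨C, hC1, hC2⟩ : ∃ C : ℝ, 1 < C ∧ C * θ < (1 - 1 / lam) * (1 - s) := by
    set D := (1 - 1 / lam) * (1 - s) with hD
    have hD0 : 0 < D := by linarith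
    refine ⟨1 + (D - θ) / (2 * D), ?_, ?_⟩
    · have : 0 < (D - θ) / (2 * D) := by
        apply div_pos <;> linarith
      linarith
    · have e1 : (D - θ) / (2 * D) * θ ≤ (D - θ) / 2 := by
        rw [div_mul_eq_mul_div, div_le_div_iff₀ (by positivity) (by norm_num)]
        nlinarith
      nlinarith
  set a₀ := (3 * a + b) / 4 with ha₀
  set a' := (a + b) / 2 with ha'
  have p1 : a < a₀ := by rw [ha₀]; linarith
  have p2 : a₀ < a' := by rw [ha₀, ha']; linarith
  have p3 : a' < b := by rw [ha']; linarith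
  have p0 : 0 < a₀ := by linarith
  have p0' : 0 < a' := by linarith
  set b' := min ((a' + b) / 2) (a' * (a' / a₀) ^ (C - 1)) with hb'
  have q1 : a' < b' := by
    apply lt_min
    · linarith
    · have : 1 < (a' / a₀) ^ (C - 1) := by
        apply Real.one_lt_rpow
        · rw [one_lt_div p0]; exact p2
        · linarith
      nlinarith
  have q2 : b' < b := lt_of_le_of_lt (min_le_left _ _) (by linarith)
  have hF := fast_pow (lam := lam) (a₀ := a₀) (a := a') (b := b') (C := C) (v := v) (n := n) hlam p0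
    p2 q1 hC1.le hn0 hn hv (min_le_right _ _) (fun t h1 h2 => hone t (by linarith) (by linarith))
    (fun k t h1 h2 => hgrow k t (by linarith) (by linarith))
  have hK : 1 ≤ 2 * (b' / a') := by
    have : 1 ≤ b' / a' := by rw [one_le_div p0']; exact q1.le
    linarith
  have main := mills hF q1 hK hδ0 (by
    have : 0 < 1 / lam := by positivity
    linarith) (by linarith) s θ hs0 hs1 hθ hC2 Good X₀ hX
  refine main.trans (dimH_mono ?_)
  rintro t ⟨h1, h2, h3⟩
  exact ⟨by linarith, by linarith, h3⟩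

end Pool.Agent.K6.H83.MC
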