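import Mathlib

set_option autoImplicit false

/-! # A Cantor set lemma without measures

If every admissible interval `[p, q]` of level `k` is divided into blocks, each of which contains, away from
its end points, an admissible interval of level `k + 1`, and if the length of a block is at most
`(length of the parent)^(1 - s) * (length of the child)^s`, then the limit set has Hausdorff dimension at
least `s`: the map of the first interval into the limit set that rescales each block to its child has an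
`s`-Hölder inverse. -/

namespace Pool.Agent.K6.H83.MC

open Set Filter Topology

/-- the data of a division of `[p, q)` into blocks `[lo u, hi u)`, with the child `[c u, d u]` of the block
of `u` -/
structure Division (s η p q : ℝ) (A : ℝ → ℝ → Prop) (lo hi c d : ℝ → ℝ) : Prop where
  le_lo : ∀ u, p ≤ u → u < q → p ≤ lo u
  lo_le : ∀ u, p ≤ u → u < q → lo u ≤ u
  lt_hi : ∀ u, p ≤ u → u < q → u < hi u
  hi_le : ∀ u, p ≤ u → u < q → hi u ≤ q
  lt : ∀ u, p ≤ u → u < q → c u < d u
  left : ∀ u, p ≤ u → u < q → lo u + η * (hi u - lo u) ≤ c u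
  right : ∀ u, p ≤ u → u < q → d u ≤ hi u - η * (hi u - lo u)
  adm : ∀ u, p ≤ u → u < q → A (c u) (d u)
  size : ∀ u, p ≤ u → u < q → hi u - lo u ≤ (q - p) ^ (1 - s) * (d u - c u) ^ s
  same : ∀ u v, p ≤ u → u < v → v < q →
    (lo u = lo v ∧ hi u = hi v ∧ c u = c v ∧ d u = d v) ∨ hi u ≤ lo v

section

variable (lo hi c d : ℕ → ℝ → ℝ → ℝ → ℝ) (p₀ q₀ : ℝ)

/-- the state of the point `u` at level `k`: its interval and its rescaled position -/
noncomputable def st (u : ℝ) : ℕ → ℝ × ℝ × ℝ
  | 0 => (p₀, q₀, u)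
  | k + 1 =>
    let z := st u k
    (c k z.1 z.2.1 z.2.2, d k z.1 z.2.1 z.2.2,
      c k z.1 z.2.1 z.2.2 + (z.2.2 - lo k z.1 z.2.1 z.2.2) *
        ((d k z.1 z.2.1 z.2.2 - c k z.1 z.2.1 z.2.2) /
          (hi k z.1 z.2.1 z.2.2 - lo k z.1 z.2.1 z.2.2)))

end

theorem cantor (Adm : ℕ → ℝ → ℝ → Prop) (s η : ℝ) (hs0 : 0 < s) (hs1 : s < 1) (hη : 0 < η)
    (hη1 : η ≤ 1) (p₀ q₀ : ℝ) (h₀ : p₀ < q₀) (hA₀ : Adm 0 p₀ q₀)
    (step : ∀ k p q, Adm k p q → p < q → ∃ lo hi c d : ℝ → ℝ,
      Division s η p q (Adm (k + 1)) lo hi c d) :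
    ENNReal.ofReal s ≤ dimH {x : ℝ | p₀ ≤ x ∧ x ≤ q₀ ∧ ∀ k, ∃ p q, Adm k p q ∧ p ≤ x ∧ x ≤ q} := by
  choose! lo hi c d hD using step
  set S : ℝ → ℕ → ℝ × ℝ × ℝ := st lo hi c d p₀ q₀ with hS
  have S0 : ∀ u, S u 0 = (p₀, q₀, u) := fun u => rfl
  have S1 : ∀ u k, (S u (k + 1)).1 = c k (S u k).1 (S u k).2.1 (S u k).2.2 := fun u k => rfl
  have S2 : ∀ u k, (S u (k + 1)).2.1 = d k (S u k).1 (S u k).2.1 (S u k).2.2 := fun u k => rfl
  have S3 : ∀ u k, (S u (k + 1)).2.2 = c k (S u k).1 (S u k).2.1 (S u k).2.2 +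
      ((S u k).2.2 - lo k (S u k).1 (S u k).2.1 (S u k).2.2) *
        ((d k (S u k).1 (S u k).2.1 (S u k).2.2 - c k (S u k).1 (S u k).2.1 (S u k).2.2) /
          (hi k (S u k).1 (S u k).2.1 (S u k).2.2 - lo k (S u k).1 (S u k).2.1 (S u k).2.2)) :=
    fun u k => rfl
  -- the invariant
  have inv : ∀ u, p₀ ≤ u → u < q₀ → ∀ k, Adm k (S u k).1 (S u k).2.1 ∧ (S u k).1 ≤ (S u k).2.2 ∧
      (S u k).2.2 < (S u k).2.1 := by
    intro u hu1 hu2 k
    induction k with
    | zero => rw [S0]; exact ⟨hA₀, hu1, hu2⟩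
    | succ k ih =>
      obtain ⟨i1, i2, i3⟩ := ih
      have D := hD k _ _ i1 (i2.trans_lt i3)
      rw [S1, S2, S3]
      set P := (S u k).1
      set Q := (S u k).2.1
      set w := (S u k).2.2
      have a1 := D.lo_le w i2 i3
      have a2 := D.lt_hi w i2 i3
      have a3 := D.lt w i2 i3
      have a4 := D.adm w i2 i3
      have h1 : 0 < hi k P Q w - lo k P Q w := by linarith
      have h2 : 0 < d k P Q w - c k P Q w := by linarith
      have h3 : 0 ≤ (w - lo k P Q w) * ((d k P Q w - c k P Q w) / (hi k P Q w - lo k P Q w)) :=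
        mul_nonneg (by linarith) (by positivity)
      have h4 : (w - lo k P Q w) * ((d k P Q w - c k P Q w) / (hi k P Q w - lo k P Q w)) <
          d k P Q w - c k P Q w := by
        rw [← mul_div_assoc, div_lt_iff₀ h1, mul_comm]
        exact mul_lt_mul_of_pos_left (by linarith) h2
      exact ⟨a4, by linarith, by linarith⟩
  have lt : ∀ u, p₀ ≤ u → u < q₀ → ∀ k, (S u k).1 < (S u k).2.1 := fun u h1 h2 k =>
    ((inv u h1 h2 k).2.1).trans_lt (inv u h1 h2 k).2.2
  have DD : ∀ u, p₀ ≤ u → u < q₀ → ∀ k, _ := fun u h1 h2 k =>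
    hD k _ _ (inv u h1 h2 k).1 (lt u h1 h2 k)
  -- nested intervals
  have nest : ∀ u, p₀ ≤ u → u < q₀ → ∀ k, (S u k).1 ≤ (S u (k + 1)).1 ∧
      (S u (k + 1)).2.1 ≤ (S u k).2.1 ∧
      (S u (k + 1)).2.1 - (S u (k + 1)).1 ≤ (1 - η) * ((S u k).2.1 - (S u k).1) := by
    intro u hu1 hu2 k
    obtain ⟨i1, i2, i3⟩ := inv u hu1 hu2 k
    have D := DD u hu1 hu2 k
    rw [S1, S2]
    set P := (S u k).1
    set Q := (S u k).2.1
    set w := (S u k).2.2
    have a0 := D.le_lo w i2 i3
    have a1 := D.lo_le w i2 i3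
    have a2 := D.lt_hi w i2 i3
    have a5 := D.hi_le w i2 i3
    have a3 := D.left w i2 i3
    have a4 := D.right w i2 i3
    have h1 : 0 < hi k P Q w - lo k P Q w := by linarith
    have h2 : 0 ≤ η * (hi k P Q w - lo k P Q w) := by positivity
    have h3 : (1 - η) * (hi k P Q w - lo k P Q w) ≤ (1 - η) * (Q - P) :=
      mul_le_mul_of_nonneg_left (by linarith) (by linarith)
    exact ⟨by linarith, by linarith, by nlinarith⟩
  have mono1 : ∀ u, p₀ ≤ u → u < q₀ → Monotone fun k => (S u k).1 := fun u h1 h2 =>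
    monotone_nat_of_le_succ fun k => (nest u h1 h2 k).1
  have anti2 : ∀ u, p₀ ≤ u → u < q₀ → Antitone fun k => (S u k).2.1 := fun u h1 h2 =>
    antitone_nat_of_succ_le fun k => (nest u h1 h2 k).2.1
  have cross : ∀ u, p₀ ≤ u → u < q₀ → ∀ i j, (S u i).1 ≤ (S u j).2.1 := by
    intro u h1 h2 i j
    have e1 := mono1 u h1 h2 (le_max_left i j)
    have e2 := anti2 u h1 h2 (le_max_right i j)
    have e3 := lt u h1 h2 (max i j)
    simp only at e1 e2
    linarith
  set F : ℝ → ℝ := fun u => ⨆ k, (S u k).1 with hF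
  have bdd : ∀ u, p₀ ≤ u → u < q₀ → BddAbove (range fun k => (S u k).1) := by
    intro u h1 h2
    refine ⟨(S u 0).2.1, ?_⟩
    rintro _ ⟨k, rfl⟩
    exact cross u h1 h2 k 0
  have F1 : ∀ u, p₀ ≤ u → u < q₀ → ∀ k, (S u k).1 ≤ F u := fun u h1 h2 k =>
    le_ciSup (bdd u h1 h2) k
  have F2 : ∀ u, p₀ ≤ u → u < q₀ → ∀ k, F u ≤ (S u k).2.1 := fun u h1 h2 k =>
    ciSup_le fun j => cross u h1 h2 j k
  -- lengths
  have len : ∀ u, p₀ ≤ u → u < q₀ → ∀ k, (S u k).2.1 - (S u k).1 ≤ (1 - η) ^ k * (q₀ - p₀) := by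
    intro u h1 h2 k
    induction k with
    | zero => rw [S0]; simp
    | succ k ih =>
      refine (nest u h1 h2 k).2.2.trans ?_
      rw [pow_succ]
      calc (1 - η) * ((S u k).2.1 - (S u k).1) ≤ (1 - η) * ((1 - η) ^ k * (q₀ - p₀)) :=
            mul_le_mul_of_nonneg_left ih (by linarith)
        _ = _ := by ring
  set C : ℝ := (q₀ - p₀) ^ (1 - s) with hC
  have hCpos : 0 < C := Real.rpow_pos_of_pos (by linarith) _
  set C' : ℝ := C / η ^ s with hC'
  have hηs : 0 < η ^ s := Real.rpow_pos_of_pos hη _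
  -- the main alternative
  have alt : ∀ u v, p₀ ≤ u → u < v → v < q₀ → ∀ k,
      (((S u k).1 = (S v k).1 ∧ (S u k).2.1 = (S v k).2.1 ∧ (S u k).2.2 < (S v k).2.2 ∧
        (v - u) * ((S u k).2.1 - (S u k).1) ^ (1 - s) ≤ C * ((S v k).2.2 - (S u k).2.2)) ∨
      (F u < F v ∧ v - u ≤ C' * (F v - F u) ^ s)) := by
    intro u v hu huv hv k
    have hu' : u < q₀ := huv.trans hv
    have hv' : p₀ ≤ v := hu.trans huv.le
    induction k with
    | zero =>
      left
      rw [S0, S0]
      refine ⟨rfl, rfl, huv, ?_⟩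
      simp only
      rw [mul_comm]
    | succ k ih =>
      rcases ih with ⟨e1, e2, e3, e4⟩ | h
      · obtain ⟨i1, i2, i3⟩ := inv u hu hu' k
        obtain ⟨j1, j2, j3⟩ := inv v hv' hv k
        have D := DD u hu hu' k
        have hPQ := lt u hu hu' k
        have fu1 := F1 u hu hu' (k + 1)
        have fu2 := F2 u hu hu' (k + 1)
        have fv1 := F1 v hv' hv (k + 1)
        have fv2 := F2 v hv' hv (k + 1)
        rw [S1] at fu1 fv1
        rw [S2] at fu2 fv2
        rw [S1, S1, S2, S2, S3, S3]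
        rw [← e1] at j2 fv1 fv2 ⊢
        rw [← e2] at j3 fv1 fv2 ⊢
        set P := (S u k).1
        set Q := (S u k).2.1
        set w := (S u k).2.2
        set w' := (S v k).2.2
        have a1 := D.lo_le w i2 i3
        have a2 := D.lt_hi w i2 i3
        have a3 := D.lt w i2 i3
        have a6 := D.left w i2 i3
        have a7 := D.right w i2 i3
        have b1 := D.lo_le w' j2 j3
        have b2 := D.lt_hi w' j2 j3
        have b3 := D.lt w' j2 j3
        have b6 := D.left w' j2 j3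
        have b7 := D.right w' j2 j3
        rcases D.same w w' i2 e3 j3 with ⟨g1, g2, g3, g4⟩ | g
        · left
          have sz := D.size w i2 i3
          rw [← g1, ← g2, ← g3, ← g4]
          set Lo := lo k P Q w
          set Hi := hi k P Q w
          set c₁ := c k P Q w
          set d₁ := d k P Q w
          have h1 : 0 < Hi - Lo := by linarith
          have h2 : 0 < d₁ - c₁ := by linarith
          have h3 : 0 < Q - P := by linarith
          have hr : 0 < (d₁ - c₁) / (Hi - Lo) := by positivity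
          refine ⟨rfl, rfl, ?_, ?_⟩
          · have := mul_lt_mul_of_pos_right (show w - Lo < w' - Lo by linarith) hr
            linarith
          · have e5 : c₁ + (w' - Lo) * ((d₁ - c₁) / (Hi - Lo)) -
                (c₁ + (w - Lo) * ((d₁ - c₁) / (Hi - Lo))) = (w' - w) * ((d₁ - c₁) / (Hi - Lo)) := by
              ring
            rw [e5]
            have hp : 0 < (Q - P) ^ (1 - s) := Real.rpow_pos_of_pos h3 _
            have hd : 0 < (d₁ - c₁) ^ (1 - s) := Real.rpow_pos_of_pos h2 _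
            have hds : 0 < (d₁ - c₁) ^ s := Real.rpow_pos_of_pos h2 _
            have hdd : (d₁ - c₁) ^ (1 - s) * (d₁ - c₁) ^ s = d₁ - c₁ := by
              rw [← Real.rpow_add h2]; simp
            have k1 : (v - u) * (d₁ - c₁) ^ (1 - s) * (Hi - Lo) ≤ C * (w' - w) * (d₁ - c₁) := by
              calc (v - u) * (d₁ - c₁) ^ (1 - s) * (Hi - Lo)
                  ≤ (v - u) * (d₁ - c₁) ^ (1 - s) * ((Q - P) ^ (1 - s) * (d₁ - c₁) ^ s) :=
                    mul_le_mul_of_nonneg_left sz (by
                      have : 0 < v - u := by linarith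
                      positivity)
                _ = ((v - u) * (Q - P) ^ (1 - s)) * ((d₁ - c₁) ^ (1 - s) * (d₁ - c₁) ^ s) := by
                    ring
                _ = ((v - u) * (Q - P) ^ (1 - s)) * (d₁ - c₁) := by rw [hdd]
                _ ≤ C * (w' - w) * (d₁ - c₁) := mul_le_mul_of_nonneg_right e4 h2.le
            have k2 : C * ((w' - w) * ((d₁ - c₁) / (Hi - Lo))) =
                C * (w' - w) * (d₁ - c₁) / (Hi - Lo) := by ring
            rw [k2, le_div_iff₀ h1]
            exact k1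
        · right
          have h1 : 0 < Q - P := by linarith
          have h2 : 0 < w' - w := by linarith
          have h3 : η * (w' - w) ≤ F v - F u := by
            have : η * (w' - w) ≤ η * ((hi k P Q w' - lo k P Q w') + (lo k P Q w' - hi k P Q w) +
                (hi k P Q w - lo k P Q w)) := mul_le_mul_of_nonneg_left (by linarith) hη.le
            have h4 : η * (lo k P Q w' - hi k P Q w) ≤ 1 * (lo k P Q w' - hi k P Q w) :=
              mul_le_mul_of_nonneg_right hη1 (by linarith)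
            have h5 : 0 ≤ η * (hi k P Q w' - lo k P Q w') := by
              apply mul_nonneg hη.le; linarith
            have h6 : 0 ≤ η * (hi k P Q w - lo k P Q w) := by
              apply mul_nonneg hη.le; linarith
            nlinarith
          have h4 : 0 < F v - F u := lt_of_lt_of_le (by positivity) h3
          refine ⟨by linarith, ?_⟩
          -- `v - u ≤ C (Q - P)^(s-1) (w' - w) ≤ C (w' - w)^s`
          have hp : 0 < (Q - P) ^ (1 - s) := Real.rpow_pos_of_pos h1 _
          have h5 : (w' - w) ^ (1 - s) ≤ (Q - P) ^ (1 - s) :=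
            Real.rpow_le_rpow h2.le (by linarith) (by linarith)
          have h6 : w' - w = (w' - w) ^ (1 - s) * (w' - w) ^ s := by
            rw [← Real.rpow_add h2]; simp
          have hws : 0 < (w' - w) ^ s := Real.rpow_pos_of_pos h2 _
          have h7 : (v - u) * (Q - P) ^ (1 - s) ≤ C * (w' - w) ^ s * (Q - P) ^ (1 - s) := by
            calc (v - u) * (Q - P) ^ (1 - s) ≤ C * (w' - w) := e4
              _ = C * ((w' - w) ^ (1 - s) * (w' - w) ^ s) := by rw [← h6]
              _ ≤ C * ((Q - P) ^ (1 - s) * (w' - w) ^ s) := by gcongr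
              _ = _ := by ring
          have h8 : v - u ≤ C * (w' - w) ^ s := le_of_mul_le_mul_right h7 hp
          have h9 : (η * (w' - w)) ^ s ≤ (F v - F u) ^ s :=
            Real.rpow_le_rpow (by positivity) h3 hs0.le
          rw [Real.mul_rpow hη.le h2.le] at h9
          calc v - u ≤ C * (w' - w) ^ s := h8
            _ = C' * (η ^ s * (w' - w) ^ s) := by rw [hC']; field_simp
            _ ≤ C' * (F v - F u) ^ s := by
              apply mul_le_mul_of_nonneg_left h9
              positivity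
      · exact Or.inr h
  -- the Hölder estimate
  have main : ∀ u v, p₀ ≤ u → u < v → v < q₀ → F u < F v ∧ v - u ≤ C' * (F v - F u) ^ s := by
    intro u v hu huv hv
    by_contra hcon
    have hu' : u < q₀ := huv.trans hv
    have hall : ∀ k, v - u ≤ C * ((1 - η) ^ k * (q₀ - p₀)) ^ s := by
      intro k
      rcases alt u v hu huv hv k with ⟨e1, e2, e3, e4⟩ | h
      · have hPQ := lt u hu hu' k
        have h1 : 0 < (S u k).2.1 - (S u k).1 := by linarith
        obtain ⟨i1, i2, i3⟩ := inv u hu hu' k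
        obtain ⟨j1, j2, j3⟩ := inv v (hu.trans huv.le) hv k
        rw [← e1, ← e2] at *
        have hp : 0 < ((S u k).2.1 - (S u k).1) ^ (1 - s) := Real.rpow_pos_of_pos h1 _
        have h2 : (S u k).2.1 - (S u k).1 = ((S u k).2.1 - (S u k).1) ^ (1 - s) *
            ((S u k).2.1 - (S u k).1) ^ s := by
          rw [← Real.rpow_add h1]; simp
        have h3 : (v - u) * ((S u k).2.1 - (S u k).1) ^ (1 - s) ≤
            C * ((S u k).2.1 - (S u k).1) ^ s * ((S u k).2.1 - (S u k).1) ^ (1 - s) := by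
          calc (v - u) * ((S u k).2.1 - (S u k).1) ^ (1 - s)
              ≤ C * ((S v k).2.2 - (S u k).2.2) := e4
            _ ≤ C * ((S u k).2.1 - (S u k).1) := by
              apply mul_le_mul_of_nonneg_left _ hCpos.le
              linarith
            _ = C * (((S u k).2.1 - (S u k).1) ^ (1 - s) * ((S u k).2.1 - (S u k).1) ^ s) := by
              rw [← h2]
            _ = _ := by ring
        have h4 := le_of_mul_le_mul_right h3 hp
        refine h4.trans ?_
        apply mul_le_mul_of_nonneg_left _ hCpos.le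
        exact Real.rpow_le_rpow h1.le (len u hu hu' k) hs0.le
      · exact absurd h hcon
    have lim : Tendsto (fun k : ℕ => C * ((1 - η) ^ k * (q₀ - p₀)) ^ s) atTop (𝓝 0) := by
      have t1 : Tendsto (fun k : ℕ => (1 - η) ^ k) atTop (𝓝 0) :=
        tendsto_pow_atTop_nhds_zero_of_lt_one (by linarith) (by linarith)
      have t2 : Tendsto (fun k : ℕ => (1 - η) ^ k * (q₀ - p₀)) atTop (𝓝 0) := by
        simpa using t1.mul_const (q₀ - p₀)
      have t3 : Tendsto (fun k : ℕ => ((1 - η) ^ k * (q₀ - p₀)) ^ s) atTop (𝓝 0) := by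
        have := t2.rpow_const (p := s) (Or.inr hs0.le)
        rwa [Real.zero_rpow hs0.ne'] at this
      simpa using t3.const_mul C
    have := ge_of_tendsto' lim hall
    linarith
  -- conclusion
  have hmem : ∀ u, p₀ ≤ u → u < q₀ →
      F u ∈ {x : ℝ | p₀ ≤ x ∧ x ≤ q₀ ∧ ∀ k, ∃ p q, Adm k p q ∧ p ≤ x ∧ x ≤ q} := by
    intro u h1 h2
    refine ⟨?_, ?_, fun k => ⟨_, _, (inv u h1 h2 k).1, F1 u h1 h2 k, F2 u h1 h2 k⟩⟩
    · simpa [S0] using F1 u h1 h2 0
    · simpa [S0] using F2 u h1 h2 0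
  have inj : InjOn F (Ico p₀ q₀) := by
    intro u hu v hv huv
    rcases lt_trichotomy u v with h | h | h
    · exact absurd huv (main u v hu.1 h hv.2).1.ne
    · exact h
    · exact absurd huv.symm (main v u hv.1 h hu.2).1.ne
  set G : ℝ → ℝ := Function.invFunOn F (Ico p₀ q₀) with hG
  have GF : ∀ u ∈ Ico p₀ q₀, G (F u) = u := fun u hu => inj.leftInvOn_invFunOn hu
  have hol : HolderOnWith (Real.toNNReal C') (Real.toNNReal s) G (F '' Ico p₀ q₀) := by
    rintro _ ⟨u, hu, rfl⟩ _ ⟨v, hv, rfl⟩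
    rw [GF u hu, GF v hv]
    have key : ∀ a b, a ∈ Ico p₀ q₀ → b ∈ Ico p₀ q₀ → a < b → edist a b ≤
        (Real.toNNReal C' : ENNReal) * edist (F a) (F b) ^ ((Real.toNNReal s : NNReal) : ℝ) := by
      intro a b ha hb hab
      obtain ⟨m1, m2⟩ := main a b ha.1 hab hb.2
      rw [edist_dist, edist_dist, Real.dist_eq, Real.dist_eq, abs_sub_comm a b,
        abs_sub_comm (F a) (F b), abs_of_pos (by linarith), abs_of_pos (by linarith),
        Real.coe_toNNReal s hs0.le]
      rw [ENNReal.ofReal_rpow_of_pos (by linarith)]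
      change ENNReal.ofReal (b - a) ≤ ENNReal.ofReal C' * ENNReal.ofReal ((F b - F a) ^ s)
      rw [← ENNReal.ofReal_mul (by positivity)]
      exact ENNReal.ofReal_le_ofReal m2
    rcases lt_trichotomy u v with h | h | h
    · exact key u v hu hv h
    · rw [h]; simp
    · rw [edist_comm u v, edist_comm (F u) (F v)]
      exact key v u hv hu h
  have d1 := hol.dimH_image_le (Real.toNNReal_pos.2 hs0)
  have d2 : G '' (F '' Ico p₀ q₀) = Ico p₀ q₀ := by
    rw [image_image]
    have : ∀ x ∈ Ico p₀ q₀, G (F x) = x := GF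
    ext x
    constructor
    · rintro ⟨u, hu, rfl⟩
      change G (F u) ∈ _
      rw [GF u hu]; exact hu
    · intro hx
      exact ⟨x, hx, GF x hx⟩
  have d3 : dimH (Ico p₀ q₀) = 1 := by
    have h := Real.dimH_of_nonempty_interior (E := ℝ) (s := Ico p₀ q₀)
      (by rw [interior_Ico]; exact nonempty_Ioo.2 h₀)
    simpa using h
  rw [d2, d3] at d1
  have d4 : dimH (F '' Ico p₀ q₀) ≤
      dimH {x : ℝ | p₀ ≤ x ∧ x ≤ q₀ ∧ ∀ k, ∃ p q, Adm k p q ∧ p ≤ x ∧ x ≤ q} := by
    apply dimH_mono
    rintro _ ⟨u, hu, rfl⟩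
    exact hmem u hu.1 hu.2
  refine le_trans ?_ d4
  have hs' : (Real.toNNReal s : ENNReal) ≠ 0 := by
    simpa using hs0
  rw [ENNReal.le_div_iff_mul_le (Or.inl hs') (Or.inl ENNReal.coe_ne_top)] at d1
  simpa [ENNReal.ofReal] using d1

end Pool.Agent.K6.H83.MC
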