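import Pool.Agent.K6.H83.MC.Cantor

set_option autoImplicit false
set_option maxHeartbeats 4000000

/-! # Mills-type constants: sequences of fast growing functions that land in prescribed short intervals

If every interval `[x, x + x^θ]` contains an interval of length `1/2` of good reals, and the functions
`g 0, g 1, ...` on `[a, b]` grow fast (`g' (k+1) ≥ g' k * (g (k+1))^δ`), then the set of the `t` in `[a, b]`
for which `g k t` is good for all large `k` has Hausdorff dimension at least `s`, if `C θ < (1 - s) δ`. -/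

namespace Pool.Agent.K6.H83.MC

open Set Filter Topology

/-- a sequence of fast growing functions with bounded distortion on `[a, b]` -/
structure Fast (δ C K a b : ℝ) (g g' : ℕ → ℝ → ℝ) : Prop where
  deriv : ∀ k x, a ≤ x → x ≤ b → HasDerivAt (g k) (g' k x) x
  pos : ∀ k x, a ≤ x → x ≤ b → 0 < g' k x
  one_le : ∀ k x, a ≤ x → x ≤ b → 1 ≤ g k x
  tame : ∀ k, g k b ≤ g k a ^ C
  dist : ∀ k x y, a ≤ x → x ≤ b → a ≤ y → y ≤ b → g k y ≤ 2 * g k x → g k x ≤ 2 * g k y →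
    g' k y ≤ K * g' k x
  grow : ∀ k x, a ≤ x → x ≤ b → g' k x * g (k + 1) x ^ δ ≤ g' (k + 1) x
  zero : ∃ κ : ℝ, 0 < κ ∧ ∀ x, a ≤ x → x ≤ b → κ ≤ g' 0 x
  top : Tendsto (fun k => g k a) atTop atTop

namespace Fast

variable {δ C K a b : ℝ} {g g' : ℕ → ℝ → ℝ}

theorem mvt (h : Fast δ C K a b g g') (k : ℕ) {x y : ℝ} (hx : a ≤ x) (hxy : x < y) (hy : y ≤ b) :
    ∃ ξ, x < ξ ∧ ξ < y ∧ g k y - g k x = g' k ξ * (y - x) := by
  have hc : ContinuousOn (g k) (Icc x y) := fun z hz =>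
    (h.deriv k z (hx.trans hz.1) (hz.2.trans hy)).continuousAt.continuousWithinAt
  obtain ⟨ξ, hξ, e⟩ := exists_hasDerivAt_eq_slope (g k) (g' k) hxy hc
    (fun z hz => h.deriv k z (hx.trans hz.1.le) (hz.2.le.trans hy))
  refine ⟨ξ, hξ.1, hξ.2, ?_⟩
  rw [e, div_mul_cancel₀]
  linarith

theorem lt (h : Fast δ C K a b g g') (k : ℕ) {x y : ℝ} (hx : a ≤ x) (hxy : x < y) (hy : y ≤ b) :
    g k x < g k y := by
  obtain ⟨ξ, h1, h2, e⟩ := h.mvt k hx hxy hy
  have := mul_pos (h.pos k ξ (by linarith) (by linarith)) (show 0 < y - x by linarith)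
  linarith

theorem le (h : Fast δ C K a b g g') (k : ℕ) {x y : ℝ} (hx : a ≤ x) (hxy : x ≤ y) (hy : y ≤ b) :
    g k x ≤ g k y := by
  rcases hxy.lt_or_eq with h1 | h1
  · exact (h.lt k hx h1 hy).le
  · rw [h1]

theorem lt_of (h : Fast δ C K a b g g') (k : ℕ) {x y : ℝ} (hx : x ≤ b) (hy : a ≤ y)
    (e : g k x < g k y) : x < y := by
  by_contra hc
  exact absurd (h.le k hy (not_lt.1 hc) hx) (not_le.2 e)

theorem le_of (h : Fast δ C K a b g g') (k : ℕ) {x y : ℝ} (hx : x ≤ b) (hy : a ≤ y)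
    (e : g k x ≤ g k y) : x ≤ y := by
  by_contra hc
  exact absurd (h.lt k hy (not_le.1 hc) hx) (not_lt.2 e)

theorem bil (h : Fast δ C K a b g g') (k : ℕ) {x y z : ℝ} (hx : a ≤ x) (hxy : x < y) (hy : y ≤ b)
    (hz1 : x ≤ z) (hz2 : z ≤ y) (h2 : g k y ≤ 2 * g k x) :
    g' k z * (y - x) ≤ K * (g k y - g k x) ∧ g k y - g k x ≤ K * (g' k z * (y - x)) := by
  obtain ⟨ξ, h3, h4, e⟩ := h.mvt k hx hxy hy
  have hyx : 0 < y - x := by linarith
  have a1 := h.le k hx hz1 (hz2.trans hy)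
  have a2 := h.le k (hx.trans hz1) hz2 hy
  have a3 := h.le k hx h3.le (h4.le.trans hy)
  have a4 := h.le k (hx.trans h3.le) h4.le hy
  have a5 := h.dist k ξ z (hx.trans h3.le) (h4.le.trans hy) (hx.trans hz1) (hz2.trans hy)
    (by linarith) (by linarith)
  have a6 := h.dist k z ξ (hx.trans hz1) (hz2.trans hy) (hx.trans h3.le) (h4.le.trans hy)
    (by linarith) (by linarith)
  rw [e]
  constructor
  · calc g' k z * (y - x) ≤ K * g' k ξ * (y - x) := mul_le_mul_of_nonneg_right a5 hyx.le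
      _ = _ := by ring
  · calc g' k ξ * (y - x) ≤ K * g' k z * (y - x) := mul_le_mul_of_nonneg_right a6 hyx.le
      _ = _ := by ring

theorem ratio (h : Fast δ C K a b g g') (hK : 0 ≤ K) (k : ℕ) {l x y r : ℝ} (hl : a ≤ l)
    (hlx : l ≤ x) (hxy : x < y) (hyr : y ≤ r) (hr : r ≤ b) (h2 : g k r ≤ 2 * g k l) :
    (g k y - g k x) * (r - l) ≤ K ^ 2 * (g k r - g k l) * (y - x) := by
  have a1 := h.le k hl hlx (hxy.le.trans (hyr.trans hr))
  have a2 := h.le k (hl.trans (hlx.trans hxy.le)) hyr hr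
  have e1 := (h.bil k hl (hlx.trans_lt (hxy.trans_le hyr)) hr hlx (hxy.le.trans hyr) h2).1
  have e2 := (h.bil k (hl.trans hlx) hxy (hyr.trans hr) le_rfl hxy.le (by linarith)).2
  have h3 : 0 ≤ r - l := by linarith
  have h4 : 0 ≤ y - x := by linarith
  calc (g k y - g k x) * (r - l) ≤ K * (g' k x * (y - x)) * (r - l) :=
        mul_le_mul_of_nonneg_right e2 h3
    _ = (g' k x * (r - l)) * (K * (y - x)) := by ring
    _ ≤ (K * (g k r - g k l)) * (K * (y - x)) := mul_le_mul_of_nonneg_right e1 (by positivity)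
    _ = _ := by ring

theorem surj (h : Fast δ C K a b g g') (k : ℕ) {p q : ℝ} (hp : a ≤ p) (hpq : p ≤ q) (hq : q ≤ b)
    (z : ℝ) (h1 : g k p ≤ z) (h2 : z ≤ g k q) : ∃ t, p ≤ t ∧ t ≤ q ∧ g k t = z := by
  have hc : ContinuousOn (g k) (Icc p q) := fun z hz =>
    (h.deriv k z (hp.trans hz.1) (hz.2.trans hq)).continuousAt.continuousWithinAt
  obtain ⟨t, ht, e⟩ := intermediate_value_Icc hpq hc ⟨h1, h2⟩
  exact ⟨t, ht.1, ht.2, e⟩

end Fast

theorem size_aux (K H L W M δ s ql rl dc G : ℝ) (hK : 0 < K) (hH : 0 < H) (hM : 0 < M)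
    (hs0 : 0 < s) (hs1 : s < 1) (hW : W = M ^ (δ * (1 - s))) (hLW : 2 * K ^ 2 * L ≤ W)
    (hA : H * rl ≤ K * L) (hB : 1 / 2 ≤ K * (H * dc)) (hC : 1 / 2 ≤ K * (G * ql)) 
    (hql : 0 < ql) (hD : G * M ^ δ ≤ H) : rl ≤ ql ^ (1 - s) * dc ^ s := by
  set E := 1 / (2 * K * H) with hE
  have hE0 : 0 < E := by positivity
  have hEE : E * (2 * K * H) = 1 := by rw [hE]; field_simp
  have hMδ : 0 < M ^ δ := Real.rpow_pos_of_pos hM _
  have h1 : E ≤ dc := by
    rw [hE, div_le_iff₀ (by positivity)]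
    linarith
  have h2 : M ^ δ * E ≤ ql := by
    have e1 : M ^ δ * (1 / 2) ≤ K * (H * ql) := by
      calc M ^ δ * (1 / 2) ≤ M ^ δ * (K * (G * ql)) := by gcongr
        _ = K * ((G * M ^ δ) * ql) := by ring
        _ ≤ K * (H * ql) := by gcongr
    rw [hE, mul_one_div, div_le_iff₀ (by positivity)]
    linarith
  have h3 : (M ^ δ * E) ^ (1 - s) * E ^ s = W * E := by
    rw [Real.mul_rpow hMδ.le hE0.le, ← Real.rpow_mul hM.le, ← hW, mul_assoc,
      ← Real.rpow_add hE0]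
    simp
  have h4 : rl ≤ W * E := by
    have e1 : H * rl ≤ H * (W * E) := by
      calc H * rl ≤ K * L := hA
        _ = (2 * K ^ 2 * L) * (H * E) * (1 / (2 * K * H * E)) := by field_simp
        _ = (2 * K ^ 2 * L) * (H * E) := by
          rw [show 2 * K * H * E = E * (2 * K * H) by ring, hEE]; ring
        _ ≤ W * (H * E) := by gcongr
        _ = _ := by ring
    exact le_of_mul_le_mul_left e1 hH
  rw [← h3] at h4
  refine h4.trans ?_
  have h5 : (M ^ δ * E) ^ (1 - s) ≤ ql ^ (1 - s) :=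
    Real.rpow_le_rpow (by positivity) h2 (by linarith)
  have h6 : E ^ s ≤ dc ^ s := Real.rpow_le_rpow hE0.le h1 hs0.le
  exact mul_le_mul h5 h6 (by positivity) (by positivity)

/-- **One step**: the division of an interval on which `g k` grows by `1/2`. -/
theorem division {δ C K a b : ℝ} {g g' : ℕ → ℝ → ℝ} (h : Fast δ C K a b g g') (hK : 1 ≤ K)
    (hδ0 : 0 < δ) (hδ1 : δ ≤ 1) (s θ : ℝ) (hs0 : 0 < s) (hs1 : s < 1) (hθ : 0 ≤ θ)
    (Good : ℝ → Prop) (k : ℕ) {p q : ℝ} (hp : a ≤ p) (hpq : p < q) (hq : q ≤ b)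
    (hg : g k q - g k p = 1 / 2) (hC : 0 ≤ C)
    (hM : 32 * K ^ 2 * g (k + 1) a ^ (C * θ) ≤ g (k + 1) a ^ (δ * (1 - s)))
    (hX : ∀ x : ℝ, g (k + 1) a ≤ x →
      ∃ y, x ≤ y ∧ y ≤ x + x ^ θ ∧ ∀ t, y ≤ t → t ≤ y + 1 / 2 → Good t) :
    ∃ lo hi c d : ℝ → ℝ, Division s (1 / (3 * K ^ 2)) p q
      (fun x y => a ≤ x ∧ y ≤ b ∧ g (k + 1) y - g (k + 1) x = 1 / 2 ∧
        ∀ t, x ≤ t → t ≤ y → Good (g (k + 1) t)) lo hi c d := by
  have hab : a ≤ b := by linarith
  have hK0 : 0 < K := by linarith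
  set M := g (k + 1) a with hMdef
  have hM1 : 1 ≤ M := h.one_le _ _ le_rfl hab
  have hM0 : 0 < M := by linarith
  set X := g (k + 1) p with hXdef
  set Y := g (k + 1) q with hYdef
  have hMX : M ≤ X := h.le (k + 1) le_rfl hp (hpq.le.trans hq)
  have hYb : Y ≤ g (k + 1) b := h.le (k + 1) (hp.trans hpq.le) hq le_rfl
  have hYM : Y ≤ M ^ C := hYb.trans (h.tame (k + 1))
  set B := M ^ (C * θ) with hB
  have hB1 : 1 ≤ B := Real.one_le_rpow hM1 (by positivity)
  have hB0 : 0 < B := by linarith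
  set W := M ^ (δ * (1 - s)) with hW
  have hWδ : W ≤ M ^ δ := Real.rpow_le_rpow_of_exponent_le hM1 (by nlinarith)
  have hWM : W ≤ M := by
    calc W ≤ M ^ (1 : ℝ) := Real.rpow_le_rpow_of_exponent_le hM1 (by nlinarith)
      _ = M := Real.rpow_one M
  have hW0 : 0 < W := Real.rpow_pos_of_pos hM0 _
  have hK2 : 1 ≤ K ^ 2 := one_le_pow₀ hK
  have hKK : K ≤ K ^ 2 := by nlinarith
  -- the growth of `g k`
  have gk2 : g k q ≤ 2 * g k p := by
    have := h.one_le k p hp (by linarith)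
    linarith
  have bk : ∀ z, p ≤ z → z ≤ q → 1 / 2 ≤ K * (g' k z * (q - p)) := fun z h1 h2 => by
    have := (h.bil k hp hpq hq h1 h2 gk2).2
    rwa [hg] at this
  -- the growth of `g (k + 1)`
  have hYX : M ^ δ / (2 * K) ≤ Y - X := by
    obtain ⟨ξ, h1, h2, e⟩ := h.mvt (k + 1) hp hpq hq
    have hξa : a ≤ ξ := by linarith
    have hξb : ξ ≤ b := by linarith
    have e1 := bk ξ h1.le h2.le
    have e2 := h.grow k ξ hξa hξb
    have e3 : M ^ δ ≤ g (k + 1) ξ ^ δ :=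
      Real.rpow_le_rpow hM0.le (h.le (k + 1) le_rfl hξa hξb) hδ0.le
    have e4 := h.pos k ξ hξa hξb
    have hqp : 0 < q - p := by linarith
    have e5 : g' k ξ * M ^ δ ≤ g' (k + 1) ξ := (mul_le_mul_of_nonneg_left e3 e4.le).trans e2
    rw [e, div_le_iff₀ (by positivity)]
    have hMδ : 0 < M ^ δ := Real.rpow_pos_of_pos hM0 _
    calc M ^ δ = 2 * M ^ δ * (1 / 2) := by ring
      _ ≤ 2 * M ^ δ * (K * (g' k ξ * (q - p))) := by gcongr
      _ = (g' k ξ * M ^ δ) * (q - p) * (2 * K) := by ring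
      _ ≤ g' (k + 1) ξ * (q - p) * (2 * K) := by gcongr
  -- the number and length of the blocks
  set L₀ := 8 * B with hL₀
  have hL₀0 : 0 < L₀ := by positivity
  have hYX1 : L₀ ≤ Y - X := by
    refine le_trans ?_ hYX
    rw [le_div_iff₀ (by positivity)]
    calc L₀ * (2 * K) = 16 * K * B := by rw [hL₀]; ring
      _ ≤ 32 * K ^ 2 * B := by
        apply mul_le_mul_of_nonneg_right _ hB0.le
        linarith
      _ ≤ W := hM
      _ ≤ M ^ δ := hWδ
  set N := ⌊(Y - X) / L₀⌋₊ with hN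
  have hN1 : 1 ≤ N := by
    apply Nat.le_floor
    rw [le_div_iff₀ hL₀0]
    simpa using hYX1
  have hN0 : (0 : ℝ) < N := by exact_mod_cast hN1
  set L := (Y - X) / N with hL
  have hNL : (N : ℝ) * L = Y - X := by rw [hL]; field_simp
  have hL1 : L₀ ≤ L := by
    rw [hL, le_div_iff₀ hN0]
    have := Nat.floor_le (show 0 ≤ (Y - X) / L₀ from div_nonneg (by linarith) hL₀0.le)
    rw [← hN, le_div_iff₀ hL₀0] at this
    linarith
  have hL0 : 0 < L := by linarith
  have hL2 : L ≤ 2 * L₀ := by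
    rw [hL, div_le_iff₀ hN0]
    have h1 := Nat.lt_floor_add_one ((Y - X) / L₀)
    rw [← hN, div_lt_iff₀ hL₀0] at h1
    have h2 : (1 : ℝ) ≤ N := by exact_mod_cast hN1
    nlinarith
  have hLM : L ≤ M := by
    calc L ≤ 2 * L₀ := hL2
      _ = 16 * B := by rw [hL₀]; ring
      _ ≤ 32 * K ^ 2 * B := by
        apply mul_le_mul_of_nonneg_right _ hB0.le
        linarith
      _ ≤ W := hM
      _ ≤ M := hWM
  have hLW : 2 * K ^ 2 * L ≤ W := by
    calc 2 * K ^ 2 * L ≤ 2 * K ^ 2 * (2 * L₀) := by gcongr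
      _ = 32 * K ^ 2 * B := by rw [hL₀]; ring
      _ ≤ W := hM
  -- the inverse function of `g (k + 1)`
  have hT := h.surj (k + 1) hp hpq.le hq
  choose! T hT1 hT2 hT3 using hT
  choose! y hy1 hy2 hy3 using hX
  set J : ℝ → ℕ := fun u => ⌊(g (k + 1) u - X) / L⌋₊ with hJ
  have jfacts : ∀ u, p ≤ u → u < q → X + J u * L ≤ g (k + 1) u ∧
      g (k + 1) u < X + (J u + 1) * L ∧ X + (J u + 1) * L ≤ Y := by
    intro u hu1 hu2
    have e1 : X ≤ g (k + 1) u := h.le (k + 1) hp hu1 (hu2.le.trans hq)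
    have e2 : g (k + 1) u < Y := h.lt (k + 1) (hp.trans hu1) hu2 hq
    have e3 : 0 ≤ (g (k + 1) u - X) / L := div_nonneg (by linarith) hL0.le
    have e4 := Nat.floor_le e3
    have e5 := Nat.lt_floor_add_one ((g (k + 1) u - X) / L)
    rw [le_div_iff₀ hL0] at e4
    rw [div_lt_iff₀ hL0] at e5
    refine ⟨by simp only [hJ]; linarith, by simp only [hJ]; linarith, ?_⟩
    have e6 : J u < N := by
      rw [hJ]
      rw [Nat.floor_lt e3, div_lt_iff₀ hL0]
      linarith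
    have e7 : ((J u : ℝ) + 1) ≤ N := by exact_mod_cast e6
    have e8 : ((J u : ℝ) + 1) * L ≤ N * L := mul_le_mul_of_nonneg_right e7 hL0.le
    linarith
  -- the child of a block
  have child : ∀ u, p ≤ u → u < q →
      X + J u * L + L / 3 ≤ y (X + J u * L + L / 3) ∧
      y (X + J u * L + L / 3) + 1 / 2 ≤ X + J u * L + 2 * L / 3 := by
    intro u hu1 hu2
    obtain ⟨f1, f2, f3⟩ := jfacts u hu1 hu2
    set j : ℝ := (J u : ℝ) with hj
    have hj0 : 0 ≤ j := Nat.cast_nonneg _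
    have hjL : 0 ≤ j * L := by positivity
    set x' := X + j * L + L / 3 with hx'
    have g1 : M ≤ x' := by rw [hx']; linarith
    have g2 : x' ≤ M ^ C := by rw [hx']; nlinarith
    have g3 : x' ^ θ ≤ B := by
      calc x' ^ θ ≤ (M ^ C) ^ θ := Real.rpow_le_rpow (by linarith) g2 hθ
        _ = B := by rw [hB, ← Real.rpow_mul hM0.le]
    refine ⟨hy1 x' g1, ?_⟩
    have g4 := hy2 x' g1
    have g5 : y x' ≤ x' + B := by linarith
    rw [hx'] at g5 ⊢
    linarith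
  refine ⟨fun u => T (X + J u * L), fun u => T (X + (J u + 1) * L),
    fun u => T (y (X + J u * L + L / 3)), fun u => T (y (X + J u * L + L / 3) + 1 / 2), ?_⟩
  -- all facts on one block
  have block : ∀ u, p ≤ u → u < q →
      (p ≤ T (X + J u * L) ∧ T (X + J u * L) ≤ u ∧ u < T (X + (J u + 1) * L) ∧
      T (X + (J u + 1) * L) ≤ q ∧
      T (X + J u * L) < T (y (X + J u * L + L / 3)) ∧
      T (y (X + J u * L + L / 3)) < T (y (X + J u * L + L / 3) + 1 / 2) ∧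
      T (y (X + J u * L + L / 3) + 1 / 2) < T (X + (J u + 1) * L) ∧
      g (k + 1) (T (X + J u * L)) = X + J u * L ∧
      g (k + 1) (T (X + (J u + 1) * L)) = X + (J u + 1) * L ∧
      g (k + 1) (T (y (X + J u * L + L / 3))) = y (X + J u * L + L / 3) ∧
      g (k + 1) (T (y (X + J u * L + L / 3) + 1 / 2)) = y (X + J u * L + L / 3) + 1 / 2) := by
    intro u hu1 hu2
    obtain ⟨f1, f2, f3⟩ := jfacts u hu1 hu2
    obtain ⟨c1, c2⟩ := child u hu1 hu2
    have hua : a ≤ u := hp.trans hu1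
    have hub : u ≤ b := hu2.le.trans hq
    have hj0 : 0 ≤ (J u : ℝ) * L := by positivity
    set z₀ := X + J u * L with hz₀
    have hz3 : X + ((J u : ℝ) + 1) * L = z₀ + L := by rw [hz₀]; ring
    rw [hz3] at f2 f3 ⊢
    set y' := y (z₀ + L / 3) with hy'
    have r0 : X ≤ z₀ := by linarith
    have r0' : z₀ ≤ Y := by linarith
    have r1 : X ≤ z₀ + L := by linarith
    have r2 : X ≤ y' := by linarith
    have r2' : y' ≤ Y := by linarith
    have r3 : X ≤ y' + 1 / 2 := by linarith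
    have r3' : y' + 1 / 2 ≤ Y := by linarith
    have t0 := hT3 z₀ r0 r0'
    have t1 := hT3 (z₀ + L) r1 f3
    have t2 := hT3 y' r2 r2'
    have t3 := hT3 (y' + 1 / 2) r3 r3'
    have u0 := hT1 z₀ r0 r0'
    have u0' := hT2 z₀ r0 r0'
    have u1 := hT1 (z₀ + L) r1 f3
    have u1' := hT2 (z₀ + L) r1 f3
    have u2 := hT1 y' r2 r2'
    have u2' := hT2 y' r2 r2'
    have u3 := hT1 (y' + 1 / 2) r3 r3'
    have u3' := hT2 (y' + 1 / 2) r3 r3'
    refine ⟨u0, ?_, ?_, u1', ?_, ?_, ?_, t0, t1, t2, t3⟩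
    · exact h.le_of (k + 1) (by linarith) (by linarith) (by rw [t0]; exact f1)
    · exact h.lt_of (k + 1) (by linarith) (by linarith) (by rw [t1]; exact f2)
    · exact h.lt_of (k + 1) (by linarith) (by linarith) (by rw [t0, t2]; linarith)
    · exact h.lt_of (k + 1) (by linarith) (by linarith) (by rw [t2, t3]; linarith)
    · exact h.lt_of (k + 1) (by linarith) (by linarith) (by rw [t1, t3]; linarith)
  have hdbl : ∀ u, p ≤ u → u < q → X + (J u + 1) * L ≤ 2 * (X + J u * L) := by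
    intro u h1 h2
    have hj0 : 0 ≤ (J u : ℝ) * L := by positivity
    linarith
  constructor
  · intro u h1 h2; exact (block u h1 h2).1
  · intro u h1 h2; exact (block u h1 h2).2.1
  · intro u h1 h2; exact (block u h1 h2).2.2.1
  · intro u h1 h2; exact (block u h1 h2).2.2.2.1
  · intro u h1 h2; exact (block u h1 h2).2.2.2.2.2.1
  · -- left margin
    intro u h1 h2
    obtain ⟨b1, b2, b3, b4, b5, b6, b7, b8, b9, b10, b11⟩ := block u h1 h2
    obtain ⟨c1, c2⟩ := child u h1 h2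
    have hd := hdbl u h1 h2
    have e := h.ratio hK0.le (k + 1) (hp.trans b1) le_rfl b5 (b6.trans b7).le (b4.trans hq)
      (by rw [b8, b9]; exact hd)
    rw [b8, b9, b10] at e
    change T (X + J u * L) + 1 / (3 * K ^ 2) * (T (X + (J u + 1) * L) - T (X + J u * L)) ≤
      T (y (X + J u * L + L / 3))
    set l := T (X + J u * L)
    set r := T (X + (J u + 1) * L)
    set c := T (y (X + J u * L + L / 3))
    have hrl : 0 < r - l := by linarith
    have e1 : L / 3 * (r - l) ≤ K ^ 2 * L * (c - l) := by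
      calc L / 3 * (r - l) ≤ (y (X + J u * L + L / 3) - (X + J u * L)) * (r - l) := by
            apply mul_le_mul_of_nonneg_right _ hrl.le
            linarith
        _ ≤ _ := e
        _ = _ := by ring
    have e2 : L * (r - l) ≤ L * (3 * K ^ 2 * (c - l)) := by linarith
    have e3 := le_of_mul_le_mul_left e2 hL0
    have e4 : 1 / (3 * K ^ 2) * (r - l) ≤ c - l := by
      rw [one_div_mul_eq_div, div_le_iff₀ (by positivity)]
      linarith
    linarith
  · -- right margin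
    intro u h1 h2
    obtain ⟨b1, b2, b3, b4, b5, b6, b7, b8, b9, b10, b11⟩ := block u h1 h2
    obtain ⟨c1, c2⟩ := child u h1 h2
    have hd := hdbl u h1 h2
    have e := h.ratio hK0.le (k + 1) (hp.trans b1) (b5.trans b6).le b7 le_rfl (b4.trans hq)
      (by rw [b8, b9]; exact hd)
    rw [b8, b9, b11] at e
    change T (y (X + J u * L + L / 3) + 1 / 2) ≤ T (X + (J u + 1) * L) -
      1 / (3 * K ^ 2) * (T (X + (J u + 1) * L) - T (X + J u * L))
    set l := T (X + J u * L)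
    set r := T (X + (J u + 1) * L)
    set d := T (y (X + J u * L + L / 3) + 1 / 2)
    have hrl : 0 < r - l := by linarith
    have e1 : L / 3 * (r - l) ≤ K ^ 2 * L * (r - d) := by
      calc L / 3 * (r - l) ≤ (X + (J u + 1) * L - (y (X + J u * L + L / 3) + 1 / 2)) * (r - l) := by
            apply mul_le_mul_of_nonneg_right _ hrl.le
            linarith
        _ ≤ _ := e
        _ = _ := by ring
    have e2 : L * (r - l) ≤ L * (3 * K ^ 2 * (r - d)) := by linarith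
    have e3 := le_of_mul_le_mul_left e2 hL0
    have e4 : 1 / (3 * K ^ 2) * (r - l) ≤ r - d := by
      rw [one_div_mul_eq_div, div_le_iff₀ (by positivity)]
      linarith
    linarith
  · -- the child is admissible
    intro u h1 h2
    obtain ⟨b1, b2, b3, b4, b5, b6, b7, b8, b9, b10, b11⟩ := block u h1 h2
    obtain ⟨c1, c2⟩ := child u h1 h2
    have hj0 : 0 ≤ (J u : ℝ) * L := by positivity
    refine ⟨by linarith, by linarith, by rw [b10, b11]; ring, fun t ht1 ht2 => ?_⟩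
    apply hy3 (X + J u * L + L / 3) (by linarith)
    · rw [← b10]; exact h.le (k + 1) (by linarith) ht1 (by linarith)
    · rw [← b11]; exact h.le (k + 1) (by linarith) ht2 (by linarith)
  · -- the size
    intro u h1 h2
    obtain ⟨b1, b2, b3, b4, b5, b6, b7, b8, b9, b10, b11⟩ := block u h1 h2
    obtain ⟨c1, c2⟩ := child u h1 h2
    have hd := hdbl u h1 h2
    have hj0 : 0 ≤ (J u : ℝ) * L := by positivity
    have e1 := (h.bil (k + 1) (hp.trans b1) (b5.trans (b6.trans b7)) (b4.trans hq) b5.le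
      (b6.trans b7).le (by rw [b8, b9]; exact hd)).1
    have e2 := (h.bil (k + 1) (hp.trans (b1.trans b5.le)) b6 (b7.le.trans (b4.trans hq)) le_rfl
      b6.le (by rw [b10, b11]; linarith)).2
    rw [b8, b9] at e1
    rw [b10, b11] at e2
    change T (X + (J u + 1) * L) - T (X + J u * L) ≤ (q - p) ^ (1 - s) *
      (T (y (X + J u * L + L / 3) + 1 / 2) - T (y (X + J u * L + L / 3))) ^ s
    have hca : a ≤ T (y (X + J u * L + L / 3)) := by linarith
    have hcb : T (y (X + J u * L + L / 3)) ≤ b := by linarith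
    have e3 := bk (T (y (X + J u * L + L / 3))) (by linarith) (by linarith)
    have e4 := h.grow k _ hca hcb
    have e5 : M ^ δ ≤ g (k + 1) (T (y (X + J u * L + L / 3))) ^ δ :=
      Real.rpow_le_rpow hM0.le (h.le (k + 1) le_rfl hca hcb) hδ0.le
    have e6 := h.pos k _ hca hcb
    have e7 := h.pos (k + 1) _ hca hcb
    refine size_aux K (g' (k + 1) (T (y (X + J u * L + L / 3)))) L W M δ s _ _ _
      (g' k (T (y (X + J u * L + L / 3)))) hK0 e7 hM0 hs0 hs1 hW hLW ?_ ?_ e3 (by linarith) ?_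
    · calc _ ≤ _ := e1
        _ = K * L := by ring
    · calc (1 / 2 : ℝ) = y (X + J u * L + L / 3) + 1 / 2 - y (X + J u * L + L / 3) := by ring
        _ ≤ _ := e2
    · exact (mul_le_mul_of_nonneg_left e5 e6.le).trans e4
  · -- consistency
    intro u v hu1 huv hv
    have e1 : g (k + 1) u < g (k + 1) v := h.lt (k + 1) (hp.trans hu1) huv (hv.le.trans hq)
    rcases eq_or_ne (J u) (J v) with e | e
    · left
      rw [e]
      exact ⟨rfl, rfl, rfl, rfl⟩
    · right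
      have hle : J u ≤ J v := by
        apply Nat.floor_mono
        apply div_le_div_of_nonneg_right _ hL0.le
        linarith
      have hlt : J u + 1 ≤ J v := by omega
      have hlt' : (J u : ℝ) + 1 ≤ J v := by exact_mod_cast hlt
      obtain ⟨f1, f2, f3⟩ := jfacts u hu1 (huv.trans hv)
      obtain ⟨f4, f5, f6⟩ := jfacts v (hu1.trans huv.le) hv
      have hj0 : 0 ≤ (J u : ℝ) * L := by positivity
      have hjv : ((J u : ℝ) + 1) * L ≤ J v * L := mul_le_mul_of_nonneg_right hlt' hL0.le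
      have r1 : X ≤ X + ((J u : ℝ) + 1) * L := by linarith
      have r2 : X ≤ X + (J v : ℝ) * L := by linarith
      have r3 : X + (J v : ℝ) * L ≤ Y := by linarith
      have t1 := hT3 _ r1 f3
      have t2 := hT3 _ r2 r3
      exact h.le_of (k + 1) ((hT2 _ r1 f3).trans hq) (hp.trans (hT1 _ r2 r3))
        (by rw [t1, t2]; linarith)

/-- **Mills-type constants.** -/
theorem mills {δ C K a b : ℝ} {g g' : ℕ → ℝ → ℝ} (h : Fast δ C K a b g g') (hab : a < b)
    (hK : 1 ≤ K) (hδ0 : 0 < δ) (hδ1 : δ ≤ 1) (hC : 0 ≤ C) (s θ : ℝ) (hs0 : 0 < s) (hs1 : s < 1)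
    (hθ : 0 ≤ θ) (hθs : C * θ < δ * (1 - s)) (Good : ℕ → ℝ → Prop) (X₀ : ℝ)
    (hX : ∀ (k : ℕ) (x : ℝ), X₀ ≤ x →
      ∃ y, x ≤ y ∧ y ≤ x + x ^ θ ∧ ∀ t, y ≤ t → t ≤ y + 1 / 2 → Good k t) :
    ENNReal.ofReal s ≤ dimH {t : ℝ | a ≤ t ∧ t ≤ b ∧ ∃ k₀, ∀ k, k₀ ≤ k → Good k (g k t)} := by
  have hK0 : 0 < K := by linarith
  obtain ⟨κ, hκ0, hκ⟩ := h.zero
  have hκk : ∀ k x, a ≤ x → x ≤ b → κ ≤ g' k x := by
    intro k
    induction k with
    | zero => exact hκ
    | succ k ih =>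
      intro x hx1 hx2
      have e1 := ih x hx1 hx2
      have e2 := h.grow k x hx1 hx2
      have e3 : 1 ≤ g (k + 1) x ^ δ := Real.one_le_rpow (h.one_le (k + 1) x hx1 hx2) hδ0.le
      nlinarith
  -- the threshold
  have t1 : ∀ᶠ M : ℝ in atTop, 32 * K ^ 2 * M ^ (C * θ) ≤ M ^ (δ * (1 - s)) := by
    have h1 : ∀ᶠ M : ℝ in atTop, 32 * K ^ 2 ≤ M ^ (δ * (1 - s) - C * θ) :=
      (tendsto_rpow_atTop (by linarith)).eventually_ge_atTop _
    filter_upwards [h1, eventually_gt_atTop (0 : ℝ)] with M hM hM0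
    calc 32 * K ^ 2 * M ^ (C * θ) ≤ M ^ (δ * (1 - s) - C * θ) * M ^ (C * θ) := by gcongr
      _ = M ^ (δ * (1 - s)) := by rw [← Real.rpow_add hM0]; ring_nf
  have t2 : ∀ᶠ M : ℝ in atTop, 1 / 2 ≤ κ * M ^ δ * (b - a) := by
    have h1 : ∀ᶠ M : ℝ in atTop, 1 / (2 * κ * (b - a)) ≤ M ^ δ :=
      (tendsto_rpow_atTop hδ0).eventually_ge_atTop _
    filter_upwards [h1] with M hM
    have hba : 0 < b - a := by linarith
    rw [div_le_iff₀ (by positivity)] at hM
    linarith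
  have t3 := h.top.eventually ((t1.and t2).and (eventually_ge_atTop X₀))
  obtain ⟨k₁, hk₁⟩ := eventually_atTop.1 t3
  set k₀ := k₁ + 1 with hk₀
  -- the initial interval
  have hinit : ∃ q₀, a < q₀ ∧ q₀ ≤ b ∧ g k₀ q₀ - g k₀ a = 1 / 2 := by
    obtain ⟨ξ, x1, x2, e⟩ := h.mvt k₀ le_rfl hab le_rfl
    obtain ⟨⟨-, m2⟩, -⟩ := hk₁ k₀ (by omega)
    have e1 := h.grow k₁ ξ x1.le x2.le
    have e2 := hκk k₁ ξ x1.le x2.le
    have e3 : g k₀ a ^ δ ≤ g k₀ ξ ^ δ :=
      Real.rpow_le_rpow (by linarith [h.one_le k₀ a le_rfl hab.le]) (h.le k₀ le_rfl x1.le x2.le)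
        hδ0.le
    have e4 : 0 ≤ g k₀ a ^ δ := Real.rpow_nonneg (by linarith [h.one_le k₀ a le_rfl hab.le]) _
    have e5 : κ * g k₀ a ^ δ ≤ g' k₀ ξ := by
      calc κ * g k₀ a ^ δ ≤ g' k₁ ξ * g k₀ ξ ^ δ := mul_le_mul e2 e3 e4 (hκ0.le.trans e2)
        _ ≤ _ := e1
    have e6 : 1 / 2 ≤ g k₀ b - g k₀ a := by
      rw [e]
      calc (1 / 2 : ℝ) ≤ κ * g k₀ a ^ δ * (b - a) := m2
        _ ≤ g' k₀ ξ * (b - a) := mul_le_mul_of_nonneg_right e5 (by linarith)
    obtain ⟨t, u1, u2, u3⟩ := h.surj k₀ le_rfl hab.le le_rfl (g k₀ a + 1 / 2) (by linarith)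
      (by linarith)
    refine ⟨t, h.lt_of k₀ hab.le (by linarith) (by rw [u3]; linarith), u2, by rw [u3]; ring⟩
  obtain ⟨q₀, hq1, hq2, hq3⟩ := hinit
  have main := cantor (fun j p q => a ≤ p ∧ q ≤ b ∧ g (k₀ + j) q - g (k₀ + j) p = 1 / 2 ∧
      (1 ≤ j → ∀ t, p ≤ t → t ≤ q → Good (k₀ + j) (g (k₀ + j) t))) s (1 / (3 * K ^ 2)) hs0 hs1
    (by positivity) (by
      rw [div_le_one (by positivity)]
      nlinarith) a q₀ hq1 ⟨le_rfl, hq2, hq3, fun h => absurd h (by norm_num)⟩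
    (fun j p q hA hpq => by
      obtain ⟨a1, a2, a3, -⟩ := hA
      obtain ⟨⟨m1, -⟩, m3⟩ := hk₁ (k₀ + j + 1) (by omega)
      obtain ⟨lo, hi, c, d, hD⟩ := division h hK hδ0 hδ1 s θ hs0 hs1 hθ
        (Good (k₀ + j + 1)) (k₀ + j) a1 hpq a2 a3 hC m1 (fun x hx => hX _ x (m3.trans hx))
      refine ⟨lo, hi, c, d, ⟨hD.le_lo, hD.lo_le, hD.lt_hi, hD.hi_le, hD.lt, hD.left, hD.right,
        fun u h1 h2 => ?_, hD.size, hD.same⟩⟩
      obtain ⟨d1, d2, d3, d4⟩ := hD.adm u h1 h2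
      exact ⟨d1, d2, d3, fun _ => d4⟩)
  refine main.trans (dimH_mono ?_)
  rintro t ⟨h1, h2, h3⟩
  refine ⟨h1, h2.trans hq2, k₀ + 1, fun k hk => ?_⟩
  obtain ⟨j, rfl⟩ : ∃ j, k = k₀ + j := ⟨k - k₀, by omega⟩
  obtain ⟨p, q, ⟨-, -, -, hg⟩, hp, hq⟩ := h3 j
  exact hg (by omega) t hp hq

end Pool.Agent.K6.H83.MC
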